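import Pool.Agent.H759.KP.Link
import Pool.Agent.H759.PTB.Sharp

/-!
The lower bound of the traces of the family of matrices.
-/

namespace Pool.Agent.H759.KP

open Finset Metric Pool.Agent.H759.PTB

noncomputable section

/-- the symbol of a word has no zeros, sharp form -/
lemma PP_word' {n m : ℕ} (hn : n = m + 1) {w : List Letter}
    (hw : ∀ x ∈ w, x = Letter.L ∨ x = Letter.R)
    (hL : Letter.L ∈ w) (hR : Letter.R ∈ w) {t : ℂ}
    (ht : 252 * (n * ‖t‖) * 7 ^ 2 * w.length ≤ 1) :
    PP m (Mt n t w) := by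
  subst hn
  intro l hl hRp z hz
  rw [sy_eq z rfl t hw hl]
  have hG := good_all (ι := Fin l.length) (P := fun i => Pu z w l[i.1]) (w := w) (n := m + 1)
    (m := m) rfl (t := t) (Λ0 := 7) (by norm_num)
    (fun i => Pu_supp z hw l[i.1])
    (fun i => Pu_N' hw hL hR hz (hRp _ (List.getElem_mem _)))
    (List.length_pos_of_mem hL) ht m
  have h1 := (hG univ (by rw [Finset.card_univ, Fintype.card_fin, hl]) 0 0 rfl
    (by rw [Finset.card_univ, Fintype.card_fin, hl, add_zero])).1
  have h2 : pr (fun i : Fin l.length => Pu z w l[i.1]) univ 0 = (l.map (Pu z w)).prod := by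
    unfold pr
    rw [show (MvPolynomial.monomial 0 (1 : ℂ) : MvPolynomial ℕ ℂ) = 1 from rfl, one_mul]
    exact Fin.prod_univ_fun_getElem l (Pu z w)
  rwa [h2] at h1

/-- the symbol of a product of blocks has no zeros -/
lemma PP_blocks' {n m : ℕ} (hn : n = m + 1) {t : ℂ} (b : List Letter) (bs : List (List Letter))
    (h : ∀ c ∈ b :: bs, (∀ x ∈ c, x = Letter.L ∨ x = Letter.R) ∧ Letter.L ∈ c ∧ Letter.R ∈ c ∧
      252 * (n * ‖t‖) * 7 ^ 2 * c.length ≤ 1) :
    PP m (Mt n t (b :: bs).flatten) := by
  induction bs generalizing b with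
  | nil =>
    obtain ⟨h1, h2, h3, h4⟩ := h b List.mem_cons_self
    simpa using PP_word' hn h1 h2 h3 h4
  | cons c bs ih =>
    obtain ⟨h1, h2, h3, h4⟩ := h b List.mem_cons_self
    have h5 := ih c (fun d hd => h d (List.mem_cons_of_mem _ hd))
    have h6 := PP_mm (PP_word' hn h1 h2 h3 h4) h5
    refine PP_congr ?_ h6
    intro k hk l _
    rw [List.flatten_cons, Mt_append n t b _ k (by omega) l]
    unfold mm
    rw [hn]

/-! ### the corners -/

/-- The generating function of a row at `t = 0`. -/
lemma row_real {n m : ℕ} (hn : n = m + 1) (z : ℂ) {w : List Letter}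
    (hw : ∀ x ∈ w, x = Letter.L ∨ x = Letter.R) (k : ℕ) (hk : k ≤ m) :
    ∑ l ∈ range n, Mt n 0 w k l * z ^ l
      = (((mt w).1.1 : ℂ) + (mt w).1.2 * z) ^ (m - k) * (((mt w).2.1 : ℂ) + (mt w).2.2 * z) ^ k := by
  induction w generalizing k with
  | nil =>
    rw [Finset.sum_eq_single k]
    · simp [Mt, PTB.mt]
    · intro l _ hl
      simp [Mt, Ne.symm hl]
    · intro h
      exact absurd (Finset.mem_range.2 (by omega)) h
  | cons x w ih =>
    have hw' : ∀ x ∈ w, x = Letter.L ∨ x = Letter.R := fun y hy => hw y (List.mem_cons_of_mem _ hy)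
    have hx := hw x List.mem_cons_self
    have h1 := phi_expand z hn hx w 0 k hk
    have h2 := congrArg (MvPolynomial.eval (fun _ => (1 : ℂ))) h1
    rw [map_mul, map_pow, map_pow, map_sum] at h2
    simp only [map_mul, map_pow, MvPolynomial.eval_C, MvPolynomial.eval_monomial] at h2
    obtain ⟨a1, a2⟩ := ev_phi z hw 0
    obtain ⟨b1, b2⟩ := ev_phi z hw' 1
    rw [ev_eq] at a1 a2 b1 b2
    rw [a1, a2] at h2
    rw [h2]
    simp only [Mt_cons, Finset.sum_mul]
    rw [Finset.sum_comm]
    refine Finset.sum_congr rfl fun j hj => ?_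
    have hj' := Finset.mem_range.1 hj
    have e1 : exx n 0 x k j = 1 := by
      rcases hx with rfl | rfl
      · show exL n k j 0 = 1
        simp [exL, sc_zero]
      · show exR n k j 0 = 1
        simp [exR, sc_zero]
    have e2 := ih hw' j (by omega)
    have e3 : ∀ l ∈ range n, ((ax n x k j : ℂ) * exx n 0 x k j) * Mt n 0 w j l * z ^ l
        = (ax n x k j : ℂ) * (Mt n 0 w j l * z ^ l) := by
      intro l _
      rw [e1]; ring
    rw [Finset.sum_congr rfl e3, ← Finset.mul_sum, e2]
    congr 1
    rw [zero_add, b1, b2]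
    simp

lemma sum_zero_pow {n : ℕ} (hn : 0 < n) (f : ℕ → ℂ) : ∑ l ∈ range n, f l * 0 ^ l = f 0 := by
  rw [Finset.sum_eq_single 0]
  · simp
  · intro l _ hl
    rw [zero_pow hl, mul_zero]
  · intro h
    exact absurd (Finset.mem_range.2 hn) h

/-- the real matrices and the family at `t = 0` -/
lemma am_Mt {n : ℕ} {w : List Letter} (hw : ∀ x ∈ w, x = Letter.L ∨ x = Letter.R)
    (k l : Fin n) : (((w.map (am n)).prod k l : ℝ) : ℂ) = Mt n 0 w k l := by
  rw [← Mt_eq n 0 hw]
  have h : (w.map (fm n 0)).prod = ((w.map (am n)).prod).map (fun r : ℝ => (r : ℂ)) := by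
    clear hw
    induction w with
    | nil =>
      rw [List.map_nil, List.prod_nil, List.map_nil, List.prod_nil]
      ext i j
      rw [Matrix.map_apply, Matrix.one_apply, Matrix.one_apply]
      split_ifs <;> simp
    | cons x w ih =>
      rw [List.map_cons, List.prod_cons, List.map_cons, List.prod_cons, ih, fm_zero]
      ext i j
      rw [Matrix.mul_apply, Matrix.map_apply, Matrix.mul_apply]
      simp
  rw [h, Matrix.map_apply]

/-- the first corner -/
lemma corner1 {m : ℕ} {w : List Letter} (hw : ∀ x ∈ w, x = Letter.L ∨ x = Letter.R) :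
    (w.map (am (m + 1))).prod ⟨0, by omega⟩ ⟨0, by omega⟩ = (PTB.mt w).1.1 ^ m := by
  have h1 := row_real (n := m + 1) (m := m) rfl 0 hw 0 (by omega)
  rw [sum_zero_pow (by omega)] at h1
  have h2 := am_Mt (n := m + 1) hw ⟨0, by omega⟩ ⟨0, by omega⟩
  simp only [mul_zero, add_zero, Nat.sub_zero, pow_zero, mul_one] at h1
  rw [h1] at h2
  exact_mod_cast h2

/-- the last corner -/
lemma corner2 {m : ℕ} {w : List Letter} (hw : ∀ x ∈ w, x = Letter.L ∨ x = Letter.R) :
    (w.map (am (m + 1))).prod ⟨m, by omega⟩ ⟨m, by omega⟩ = (PTB.mt w).2.2 ^ m := by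
  have key : (∑ l ∈ range (m + 1), Polynomial.C (Mt (m + 1) 0 w m l) * Polynomial.X ^ l)
      = (Polynomial.C ((PTB.mt w).2.1 : ℂ)
        + Polynomial.C ((PTB.mt w).2.2 : ℂ) * Polynomial.X) ^ m := by
    apply Polynomial.funext
    intro z
    have h1 := row_real (n := m + 1) (m := m) rfl z hw m le_rfl
    rw [Polynomial.eval_finsetSum]
    simp only [Polynomial.eval_mul, Polynomial.eval_C, Polynomial.eval_pow, Polynomial.eval_X,
      Polynomial.eval_add]
    rw [h1]
    simp
  have h3 := congrArg (fun p => Polynomial.coeff p m) key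
  simp only [Polynomial.finsetSum_coeff, Polynomial.coeff_C_mul, Polynomial.coeff_X_pow] at h3
  rw [Finset.sum_eq_single m (by intro l _ hl; rw [if_neg (Ne.symm hl), mul_zero])
    (by intro h; exact absurd (Finset.mem_range.2 (by omega)) h), if_pos rfl, mul_one] at h3
  have h4 : ((Polynomial.C ((PTB.mt w).2.1 : ℂ)
        + Polynomial.C ((PTB.mt w).2.2 : ℂ) * Polynomial.X) ^ m).coeff m
        = ((PTB.mt w).2.2 : ℂ) ^ m := by
    have h5 := Polynomial.coeff_pow_of_natDegree_le (n := 1) (m := m)
      (p := Polynomial.C ((PTB.mt w).2.1 : ℂ) + Polynomial.C ((PTB.mt w).2.2 : ℂ) * Polynomial.X)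
      (by
        refine (Polynomial.natDegree_add_le _ _).trans (max_le ?_ ?_)
        · rw [Polynomial.natDegree_C]; omega
        · exact (Polynomial.natDegree_C_mul_le _ _).trans Polynomial.natDegree_X_le)
    rw [mul_one] at h5
    rw [h5]
    simp
  rw [h4] at h3
  have h2 := am_Mt (n := m + 1) hw ⟨m, by omega⟩ ⟨m, by omega⟩
  rw [h3] at h2
  exact_mod_cast h2

/-- the larger diagonal entry -/
def dg (w : List Letter) : ℝ := max (PTB.mt w).1.1 (PTB.mt w).2.2

lemma F0_dg {n : ℕ} (hn : 0 < n) {w : List Letter} (hw : ∀ x ∈ w, x = Letter.L ∨ x = Letter.R) :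
    dg w ^ (n - 1) ≤ F0 n w := by
  obtain ⟨m, rfl⟩ : ∃ m, n = m + 1 := ⟨n - 1, by omega⟩
  rw [Nat.add_sub_cancel]
  have h : ∀ i : Fin (m + 1), (w.map (am (m + 1))).prod i i ≤ F0 (m + 1) w := by
    intro i
    unfold F0 Matrix.trace
    exact Finset.single_le_sum (f := fun k => (w.map (am (m + 1))).prod k k)
      (fun k _ => prod_am_nonneg (m + 1) w k k) (mem_univ i)
  unfold dg
  rcases le_total (PTB.mt w).1.1 (PTB.mt w).2.2 with h1 | h1
  · rw [max_eq_right h1, ← corner2 hw]
    exact h _
  · rw [max_eq_left h1, ← corner1 hw]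
    exact h _

lemma mt_append {u : List Letter} (hu : ∀ x ∈ u, x = Letter.L ∨ x = Letter.R) (v : List Letter) :
    (PTB.mt (u ++ v)).1.1 = (PTB.mt u).1.1 * (PTB.mt v).1.1 + (PTB.mt u).1.2 * (PTB.mt v).2.1 ∧
    (PTB.mt (u ++ v)).1.2 = (PTB.mt u).1.1 * (PTB.mt v).1.2 + (PTB.mt u).1.2 * (PTB.mt v).2.2 ∧
    (PTB.mt (u ++ v)).2.1 = (PTB.mt u).2.1 * (PTB.mt v).1.1 + (PTB.mt u).2.2 * (PTB.mt v).2.1 ∧
    (PTB.mt (u ++ v)).2.2 = (PTB.mt u).2.1 * (PTB.mt v).1.2 + (PTB.mt u).2.2 * (PTB.mt v).2.2 := by
  induction u with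
  | nil => simp [PTB.mt]
  | cons x u ih =>
    have hu' : ∀ x ∈ u, x = Letter.L ∨ x = Letter.R := fun y hy => hu y (List.mem_cons_of_mem _ hy)
    obtain ⟨h1, h2, h3, h4⟩ := ih hu'
    rw [List.cons_append]
    rcases hu x List.mem_cons_self with rfl | rfl
    · have e : ∀ y : List Letter, PTB.mt (Letter.L :: y) = (((PTB.mt y).1.1 + (PTB.mt y).2.1,
        (PTB.mt y).1.2 + (PTB.mt y).2.2), (PTB.mt y).2) := fun _ => rfl
      rw [e, e]
      simp only
      rw [h1, h2, h3, h4]
      refine ⟨?_, ?_, ?_, ?_⟩ <;> ring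
    · have e : ∀ y : List Letter, PTB.mt (Letter.R :: y) = ((PTB.mt y).1,
        ((PTB.mt y).1.1 + (PTB.mt y).2.1, (PTB.mt y).1.2 + (PTB.mt y).2.2)) := fun _ => rfl
      rw [e, e]
      simp only
      rw [h1, h2, h3, h4]
      refine ⟨?_, ?_, ?_, ?_⟩ <;> ring

/-! ### syllables -/

/-- the letter of a syllable -/
def lr : Bool → Letter
  | true => Letter.R
  | false => Letter.L

/-- the word with syllables of given lengths; `s` says with which letter it starts -/
def sw : Bool → List ℕ → List Letter
  | _, [] => []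
  | s, a :: l => List.replicate a (lr s) ++ sw (!s) l

/-- pairs of syllables -/
def bks : Bool → List ℕ → List (List Letter)
  | s, a :: b :: l => (List.replicate a (lr s) ++ List.replicate b (lr (!s))) :: bks s l
  | _, _ => []

lemma lr_LR (s : Bool) : lr s = Letter.L ∨ lr s = Letter.R := by
  cases s
  · exact Or.inl rfl
  · exact Or.inr rfl

lemma sw_mem (s : Bool) (l : List ℕ) : ∀ x ∈ sw s l, x = Letter.L ∨ x = Letter.R := by
  induction l generalizing s with
  | nil => intro x hx; simp [sw] at hx
  | cons a l ih =>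
    intro x hx
    rcases List.mem_append.1 hx with h | h
    · rw [List.eq_of_mem_replicate h]; exact lr_LR s
    · exact ih _ x h

lemma bks_flatten (k : ℕ) : ∀ (s : Bool) (l : List ℕ), l.length = 2 * k →
    (bks s l).flatten = sw s l ∧ (bks s l).length = k := by
  induction k with
  | zero =>
    intro s l hl
    have : l = [] := List.length_eq_zero_iff.1 (by omega)
    subst this
    simp [bks, sw]
  | succ k ih =>
    intro s l hl
    match l, hl with
    | a :: b :: l, hl =>
      have h2 : l.length = 2 * k := by simp only [List.length_cons] at hl; omega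
      obtain ⟨i1, i2⟩ := ih s l h2
      constructor
      · show ((List.replicate a (lr s) ++ List.replicate b (lr (!s))) :: bks s l).flatten = _
        rw [List.flatten_cons, i1]
        show _ = List.replicate a (lr s) ++ (List.replicate b (lr (!s)) ++ sw (!(!s)) l)
        rw [Bool.not_not, List.append_assoc]
      · show ((List.replicate a (lr s) ++ List.replicate b (lr (!s))) :: bks s l).length = _
        rw [List.length_cons, i2]

lemma mt_RL (a b : ℕ) : PTB.mt (List.replicate b Letter.R ++ List.replicate a Letter.L)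
    = ((1, (a : ℝ)), ((b : ℝ), 1 + (a : ℝ) * b)) := by
  have hL : ∀ a : ℕ, PTB.mt (List.replicate a Letter.L) = ((1, (a : ℝ)), (0, 1)) := by
    intro a
    induction a with
    | zero => simp [PTB.mt]
    | succ a ih =>
      rw [List.replicate_succ]
      show (((PTB.mt (List.replicate a Letter.L)).1.1 + _, _), _) = _
      rw [ih]
      simp
  induction b with
  | zero => simp [hL]
  | succ b ih =>
    simp only [List.replicate_succ, List.cons_append]
    show ((PTB.mt (List.replicate b Letter.R ++ List.replicate a Letter.L)).1, _) = _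
    rw [ih]
    simp only [Nat.cast_succ]
    congr 2
    · ring
    · ring

/-- the blocks of a word with bounded syllables -/
lemma bks_props {A : ℕ} (k : ℕ) : ∀ (s : Bool) (l : List ℕ), l.length = 2 * k →
    (∀ a ∈ l, 1 ≤ a ∧ a ≤ A) → ∀ c ∈ bks s l, (∀ x ∈ c, x = Letter.L ∨ x = Letter.R) ∧
      Letter.L ∈ c ∧ Letter.R ∈ c ∧ c.length ≤ 2 * A := by
  induction k with
  | zero =>
    intro s l hl _ c hc
    have : l = [] := List.length_eq_zero_iff.1 (by omega)
    subst this
    simp [bks] at hc
  | succ k ih =>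
    intro s l hl hA c hc
    match l, hl with
    | a :: b :: l, hl =>
      have h2 : l.length = 2 * k := by simp only [List.length_cons] at hl; omega
      have hc' : c = List.replicate a (lr s) ++ List.replicate b (lr (!s)) ∨ c ∈ bks s l := by
        simpa [bks] using hc
      rcases hc' with rfl | hc'
      · obtain ⟨a1, a2⟩ := hA a (by simp)
        obtain ⟨b1, b2⟩ := hA b (by simp)
        refine ⟨?_, ?_, ?_, ?_⟩
        · intro x hx
          rcases List.mem_append.1 hx with h | h
          · rw [List.eq_of_mem_replicate h]; exact lr_LR s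
          · rw [List.eq_of_mem_replicate h]; exact lr_LR _
        · rw [List.mem_append]
          cases s
          · exact Or.inl (List.mem_replicate.2 ⟨by omega, rfl⟩)
          · exact Or.inr (List.mem_replicate.2 ⟨by omega, rfl⟩)
        · rw [List.mem_append]
          cases s
          · exact Or.inr (List.mem_replicate.2 ⟨by omega, rfl⟩)
          · exact Or.inl (List.mem_replicate.2 ⟨by omega, rfl⟩)
        · rw [List.length_append, List.length_replicate, List.length_replicate]; omega
      · exact ih s l h2 (fun x hx => hA x (by simp [hx])) c hc'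

/-- the growth of the matrix -/
lemma dg_ge {A : ℕ} (k : ℕ) : ∀ (s : Bool) (l : List ℕ), l.length = 2 * k →
    (∀ a ∈ l, 1 ≤ a ∧ a ≤ A) → (2 : ℝ) ^ k ≤ dg (sw s l) := by
  have key : ∀ (k : ℕ) (l : List ℕ), l.length = 2 * k → (∀ a ∈ l, 1 ≤ a ∧ a ≤ A) →
      (2 : ℝ) ^ k ≤ (PTB.mt (sw false l)).1.1 ∧ (2 : ℝ) ^ k ≤ (PTB.mt (sw true l)).2.2 := by
    intro k
    induction k with
    | zero =>
      intro l hl _
      have : l = [] := List.length_eq_zero_iff.1 (by omega)
      subst this
      simp [sw, PTB.mt]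
    | succ k ih =>
      intro l hl hA
      match l, hl with
      | a :: b :: l, hl =>
        have h2 : l.length = 2 * k := by simp only [List.length_cons] at hl; omega
        obtain ⟨i1, i2⟩ := ih l h2 (fun x hx => hA x (by simp [hx]))
        obtain ⟨a1, a2⟩ := hA a (by simp)
        obtain ⟨b1, b2⟩ := hA b (by simp)
        have ha : (1 : ℝ) ≤ a := by exact_mod_cast a1
        have hb : (1 : ℝ) ≤ b := by exact_mod_cast b1
        have hab : 1 ≤ (a : ℝ) * b := by nlinarith
        have h2k : (0 : ℝ) < 2 ^ k := by positivity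
        constructor
        · have e : sw false (a :: b :: l)
              = (List.replicate a Letter.L ++ List.replicate b Letter.R) ++ sw false l := by
            show List.replicate a Letter.L ++ (List.replicate b Letter.R ++ sw false l) = _
            rw [List.append_assoc]
          have hm : ∀ x ∈ List.replicate a Letter.L ++ List.replicate b Letter.R,
              x = Letter.L ∨ x = Letter.R := bl_mem (p := (a, b))
          obtain ⟨⟨_, _, p3, _⟩, _, _⟩ := mt_pos (sw_mem false l)
          rw [e, (mt_append hm _).1]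
          have h3 := mt_LR a b
          unfold bl at h3
          simp only at h3
          rw [h3]
          simp only
          rw [pow_succ]
          nlinarith
        · have e : sw true (a :: b :: l)
              = (List.replicate a Letter.R ++ List.replicate b Letter.L) ++ sw true l := by
            show List.replicate a Letter.R ++ (List.replicate b Letter.L ++ sw true l) = _
            rw [List.append_assoc]
          have hm : ∀ x ∈ List.replicate a Letter.R ++ List.replicate b Letter.L,
              x = Letter.L ∨ x = Letter.R := by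
            intro x hx
            rcases List.mem_append.1 hx with h | h
            · exact Or.inr (List.eq_of_mem_replicate h)
            · exact Or.inl (List.eq_of_mem_replicate h)
          obtain ⟨⟨_, p2, _, _⟩, _, _⟩ := mt_pos (sw_mem true l)
          rw [e, (mt_append hm _).2.2.2, mt_RL]
          simp only
          rw [pow_succ]
          nlinarith
  intro s l hl hA
  obtain ⟨h1, h2⟩ := key k l hl hA
  unfold dg
  cases s
  · exact h1.trans (le_max_left _ _)
  · exact h2.trans (le_max_right _ _)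

lemma sw_length {A : ℕ} (s : Bool) (l : List ℕ) (h : ∀ a ∈ l, 1 ≤ a ∧ a ≤ A) :
    (sw s l).length ≤ A * l.length := by
  induction l generalizing s with
  | nil => simp [sw]
  | cons a l ih =>
    have h1 := ih (!s) (fun x hx => h x (by simp [hx]))
    have h2 := (h a (by simp)).2
    show (List.replicate a (lr s) ++ sw (!s) l).length ≤ _
    rw [List.length_append, List.length_replicate, List.length_cons]
    nlinarith

/-- **The family of traces has no zeros.** -/
theorem ft_ne {n : ℕ} (hn : 1 ≤ n) {A : ℕ} {s : Bool} {l : List ℕ} {k : ℕ} (hk : 1 ≤ k)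
    (hl : l.length = 2 * k) (h : ∀ a ∈ l, 1 ≤ a ∧ a ≤ A) {t : ℂ}
    (ht : 24696 * (n * ‖t‖) * A ≤ 1) : ft n (sw s l) t ≠ 0 := by
  obtain ⟨m, rfl⟩ : ∃ m, n = m + 1 := ⟨n - 1, by omega⟩
  rw [ft_eq _ t (sw_mem s l)]
  apply trace_ne
  obtain ⟨h1, h2⟩ := bks_flatten k s l hl
  have hne : bks s l ≠ [] := by
    intro h0
    rw [h0] at h2
    simp at h2
    omega
  obtain ⟨b, bs, hb⟩ := List.exists_cons_of_ne_nil hne
  rw [← h1, hb]
  apply PP_blocks' rfl
  intro c hc
  rw [← hb] at hc
  obtain ⟨c1, c2, c3, c4⟩ := bks_props k s l hl h c hc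
  refine ⟨c1, c2, c3, ?_⟩
  have h3 : (c.length : ℝ) ≤ 2 * A := by exact_mod_cast c4
  calc 252 * (((m + 1 : ℕ) : ℝ) * ‖t‖) * 7 ^ 2 * c.length
      ≤ 252 * (((m + 1 : ℕ) : ℝ) * ‖t‖) * 7 ^ 2 * (2 * A) := by gcongr
    _ = 24696 * (((m + 1 : ℕ) : ℝ) * ‖t‖) * A := by ring
    _ ≤ 1 := ht

/-- lower bound of the family of traces on a disc of radius of order `1 / n` -/
theorem ft_lower {n : ℕ} (hn : 1 ≤ n) {A : ℕ} (hA : 1 ≤ A) {s : Bool} {l : List ℕ} {k : ℕ}
    (hk : 1 ≤ k) (hl : l.length = 2 * k) (h : ∀ a ∈ l, 1 ≤ a ∧ a ≤ A) {t : ℂ}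
    (ht : 49392 * (n * ‖t‖) * A ≤ 1) :
    dg (sw s l) ^ (n - 1) * Real.exp (-(k * n / 1500)) ≤ ‖ft n (sw s l) t‖ := by
  have hA0 : (1 : ℝ) ≤ A := by exact_mod_cast hA
  have hn0 : (1 : ℝ) ≤ n := by exact_mod_cast hn
  have hk0 : (1 : ℝ) ≤ k := by exact_mod_cast hk
  have hF := F0_dg (by omega : 0 < n) (sw_mem s l)
  have hdg : (1 : ℝ) ≤ dg (sw s l) :=
    le_trans (one_le_pow₀ (by norm_num)) (dg_ge k s l hl h)
  have hF0 : 0 < F0 n (sw s l) := lt_of_lt_of_le (by positivity) hF
  set r : ℝ := 1 / (24696 * A) with hr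
  have hr0 : 0 < r := by positivity
  have hR0 : 0 < r / n := by positivity
  have hrs : r ≤ 1 / 4 := by
    rw [hr]
    apply one_div_le_one_div_of_le (by norm_num)
    linarith
  have hlen : ((sw s l).length : ℝ) ≤ 2 * A * k := by
    have := sw_length s l h
    rw [hl] at this
    have h2 : ((sw s l).length : ℝ) ≤ ((A * (2 * k) : ℕ) : ℝ) := by exact_mod_cast this
    push_cast at h2
    linarith
  set g : ℂ → ℂ := fun t => ft n (sw s l) t / (F0 n (sw s l) : ℂ) with hgdef
  have hball : ∀ z ∈ ball (0 : ℂ) (r / n), n * ‖z‖ < r := by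
    intro z hz
    rw [mem_ball_zero_iff, lt_div_iff₀ (by linarith)] at hz
    linarith
  have hg := lower_of_ne_zero (g := g) (R := r / n) (M := k * n / 3000) hR0
    (by positivity) (by
      apply DifferentiableOn.div_const
      apply ft_diff
      rw [mul_div_cancel₀ _ (by linarith : (n : ℝ) ≠ 0)]
      exact hrs) (by
      intro z hz
      have h1 := hball z hz
      have h2 := ft_bound (n := n) (t := z) (by linarith) (sw s l)
      rw [hgdef]
      simp only
      rw [norm_div, Complex.norm_real, Real.norm_eq_abs, abs_of_pos hF0, div_le_iff₀ hF0, mul_comm]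
      refine h2.trans ?_
      apply mul_le_mul_of_nonneg_left _ hF0.le
      apply Real.exp_le_exp.2
      calc 4 * ((sw s l).length : ℝ) * (n ^ 2 * ‖z‖)
          = 4 * ((sw s l).length : ℝ) * (n * (n * ‖z‖)) := by ring
        _ ≤ 4 * (2 * A * k) * (n * r) := by gcongr
        _ = k * n / 3087 := by rw [hr]; field_simp; norm_num
        _ ≤ _ := by
          apply div_le_div_of_nonneg_left (by positivity) (by norm_num) (by norm_num)) (by
      rw [hgdef]
      simp only
      rw [ft_zero]
      exact div_self (by exact_mod_cast hF0.ne')) (by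
      intro z hz
      have h1 := hball z hz
      apply div_ne_zero _ (by exact_mod_cast hF0.ne')
      apply ft_ne hn hk hl h
      have h2 : n * ‖z‖ * (24696 * A) ≤ 1 := by
        have h3 : n * ‖z‖ * (24696 * A) ≤ r * (24696 * A) := by gcongr
        have h4 : r * (24696 * (A : ℝ)) = 1 := by rw [hr]; field_simp
        linarith
      linarith) (z := t) (by
      rw [le_div_iff₀ (by norm_num), le_div_iff₀ (by linarith), hr, le_div_iff₀ (by positivity)]
      linarith)
  have h1 : ‖ft n (sw s l) t‖ = F0 n (sw s l) * ‖g t‖ := by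
    rw [hgdef]
    simp only
    rw [norm_div, Complex.norm_real, Real.norm_eq_abs, abs_of_pos hF0]
    field_simp
  rw [h1]
  have e : -(2 * (k * n / 3000 : ℝ)) = -(k * n / 1500) := by ring
  rw [e] at hg
  gcongr

end

end Pool.Agent.H759.KP
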